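import Pool.Agent.N875.K17.Stm
import Pool.Agent.N73.QB.Nrm

/-!
# Project K17: the norm maps the 2-Selmer group to the 2-Selmer group, all quadratic fields,
# theorem `t_NRM : S_NRM`
-/

set_option autoImplicit false

namespace Pool.Agent.N803.K17

open IsDedekindDomain NumberField

open Pool.Agent.N856.QB (Lo Se)
open Pool.Agent.N875.K17 (Qd S_NRM)
open Pool.Agent.TH841.SH (LocC SelG pt_real pt_pad)
open Pool.Agent.N73.QB

/-- a complex embedding extends to the completion at the infinite place -/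
lemma cplx_ext {K : Type} [Field K] [NumberField K] (σ : K →+* ℂ) :
    ∃ (v : InfinitePlace K) (φ : v.Completion →+* ℂ), ∀ x : K,
      φ (algebraMap K v.Completion x) = σ x := by
  have key : ∀ x : K, InfinitePlace.Completion.extensionEmbedding (InfinitePlace.mk σ)
      (algebraMap K (InfinitePlace.mk σ).Completion x) = (InfinitePlace.mk σ).embedding x := by
    intro x
    have h1 := InfinitePlace.Completion.extensionEmbedding_coe (v := InfinitePlace.mk σ)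
      ((WithAbs.equiv _).symm x)
    exact h1
  rcases InfinitePlace.embedding_mk_eq σ with h | h
  · refine ⟨InfinitePlace.mk σ, InfinitePlace.Completion.extensionEmbedding _, fun x => ?_⟩
    rw [key, h]
  · refine ⟨InfinitePlace.mk σ, (starRingEnd ℂ).comp
      (InfinitePlace.Completion.extensionEmbedding _), fun x => ?_⟩
    rw [RingHom.comp_apply, key, h, ComplexEmbedding.conjugate_coe_eq, Complex.conj_conj]

lemma not_sq {m : ℤ} (hm : Squarefree m) (h1 : m ≠ 1) : ¬ IsSquare ((m : ℤ) : ℚ) := by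
  rintro h
  rw [Rat.isSquare_intCast_iff] at h
  obtain ⟨n, hn⟩ := h
  have h3 : IsUnit n := hm n (by rw [hn])
  rw [Int.isUnit_iff] at h3
  rcases h3 with rfl | rfl <;> exact h1 (by rw [hn]; norm_num)

theorem t_NRM : S_NRM := by
  intro m hm1 hm2 K _ _ r hq a b c hab hac hbc z hz u v hu hv hzu hzv
  have hDs := not_sq hm1 hm2
  have hr : r ^ 2 = (((m : ℤ) : ℚ) : K) := by rw [hq.hr, Rat.cast_intCast]
  obtain ⟨hz1, hz2, hfin, hinf⟩ := hz
  obtain ⟨z₁, z₂⟩ := z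
  simp only at hz1 hz2 hfin hinf hzu hzv
  obtain ⟨a₁, b₁, rfl⟩ := hq.hK z₁
  obtain ⟨a₂, b₂, rfl⟩ := hq.hK z₂
  rw [norm_quad hr hDs hq.hK] at hzu hzv
  have hn1 : a₁ ^ 2 - ((m : ℤ) : ℚ) * b₁ ^ 2 ≠ 0 := by
    rw [← norm_quad hr hDs hq.hK, Algebra.norm_ne_zero_iff]
    exact hz1
  have hn2 : a₂ ^ 2 - ((m : ℤ) : ℚ) * b₂ ^ 2 ≠ 0 := by
    rw [← norm_quad hr hDs hq.hK, Algebra.norm_ne_zero_iff]
    exact hz2
  -- split completions
  have split : ∀ (F : Type) [Field F] [CharZero F] (s : F), s ^ 2 = ((m : ℤ) : F) →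
      Pt0 (a : F) (b : F) (c : F) →
      (∀ σ : K →+* F, Cl (a : F) (b : F) (c : F) (σ ((a₁ : K) + b₁ * r)) (σ ((a₂ : K) + b₂ * r))) →
      LocC F a b c u v := by
    intro F _ _ s hs h0 hσ
    obtain ⟨σ, h1⟩ := exists_emb (F := F) (s := s) hr hDs hq.hK (by rw [hs, Rat.cast_intCast])
    obtain ⟨τ, h2⟩ := exists_emb (F := F) (s := -s) hr hDs hq.hK
      (by rw [neg_sq, hs, Rat.cast_intCast])
    have h := sum_pt (by exact_mod_cast hab) (by exact_mod_cast hac) (by exact_mod_cast hbc) h0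
      (hσ σ) (hσ τ)
    rw [h1, h1, h2, h2] at h
    refine cl_fin (N₁ := a₁ ^ 2 - ((m : ℤ) : ℚ) * b₁ ^ 2)
      (N₂ := a₂ ^ 2 - ((m : ℤ) : ℚ) * b₂ ^ 2) ?_ hn1 hn2 hzu hzv
    convert h using 1
    · push_cast
      linear_combination ((b₁ : F) ^ 2) * hs
    · push_cast
      linear_combination ((b₂ : F) ^ 2) * hs
  refine ⟨hu, hv, ?_, ?_⟩
  · rcases lt_or_ge m 0 with hneg | hpos
    · have hmR : ((m : ℤ) : ℝ) < 0 := by exact_mod_cast hneg
      have hmR' : (0 : ℝ) ≤ -((m : ℤ) : ℝ) := by linarith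
      have hsR : (Real.sqrt (-((m : ℤ) : ℝ))) ^ 2 = -((m : ℤ) : ℝ) := Real.sq_sqrt hmR'
      have hs0 : Real.sqrt (-((m : ℤ) : ℝ)) ≠ 0 := by
        intro h0
        rw [h0] at hsR
        linarith
      have hs : ((Real.sqrt (-((m : ℤ) : ℝ)) : ℂ) * Complex.I) ^ 2 =
          algebraMap ℝ ℂ ((m : ℤ) : ℝ) := by
        rw [mul_pow, Complex.I_sq, ← Complex.ofReal_pow, hsR]
        simp
      have hsq : ¬ IsSquare ((m : ℤ) : ℝ) := by
        rintro ⟨t, ht⟩
        nlinarith [mul_self_nonneg t]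
      have hL : ∀ x : ℂ, ∃ α β : ℝ, x = algebraMap ℝ ℂ α +
          algebraMap ℝ ℂ β * ((Real.sqrt (-((m : ℤ) : ℝ)) : ℂ) * Complex.I) := by
        intro x
        refine ⟨x.re, x.im / Real.sqrt (-((m : ℤ) : ℝ)), ?_⟩
        have h0 : (Real.sqrt (-((m : ℤ) : ℝ)) : ℂ) ≠ 0 := by exact_mod_cast hs0
        have h1 : algebraMap ℝ ℂ (x.im / Real.sqrt (-((m : ℤ) : ℝ))) =
            (x.im : ℂ) / (Real.sqrt (-((m : ℤ) : ℝ)) : ℂ) := by simp
        rw [h1, ← mul_assoc, div_mul_cancel₀ _ h0]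
        exact (Complex.re_add_im x).symm
      obtain ⟨σ, hσ⟩ := exists_emb (F := ℂ)
        (s := (Real.sqrt (-((m : ℤ) : ℝ)) : ℂ) * Complex.I) hr hDs hq.hK
        (by rw [hs]; simp)
      obtain ⟨w, φ, hφ⟩ := cplx_ext σ
      have h := lo_map φ (hinf w)
      rw [hφ, hφ, hσ, hσ] at h
      have hc : ∀ n : ℤ, (n : ℂ) = algebraMap ℝ ℂ (n : ℝ) := fun n => (map_intCast _ n).symm
      have hc' : ∀ n : ℚ, (n : ℂ) = algebraMap ℝ ℂ (n : ℝ) := fun n =>
        (map_ratCast (algebraMap ℝ ℂ) n).symm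
      rw [hc, hc, hc, hc', hc', hc', hc'] at h
      have h' := quad_pt hs hsq hL (by exact_mod_cast hab) (by exact_mod_cast hac)
        (by exact_mod_cast hbc) (pt_real a b c) h
      refine cl_fin (N₁ := a₁ ^ 2 - ((m : ℤ) : ℚ) * b₁ ^ 2)
        (N₂ := a₂ ^ 2 - ((m : ℤ) : ℚ) * b₂ ^ 2) ?_ hn1 hn2 hzu hzv
      convert h' using 1 <;> push_cast <;> rfl
    · have hmR : (0 : ℝ) ≤ ((m : ℤ) : ℝ) := by exact_mod_cast hpos
      refine split ℝ (Real.sqrt ((m : ℤ) : ℝ)) (Real.sq_sqrt hmR) (pt_real a b c) fun σ => ?_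
      obtain ⟨w, φ, hφ⟩ := real_ext σ
      have := lo_map φ (hinf w)
      rwa [hφ, hφ] at this
  · intro p _
    by_cases hsq : IsSquare ((m : ℤ) : ℚ_[p])
    · obtain ⟨s, hs⟩ := hsq
      refine split ℚ_[p] s (by rw [hs, sq]) (pt_pad p a b c) fun σ => ?_
      obtain ⟨w, φ, hφ⟩ := exists_hom σ (Fact.out : p.Prime).ne_zero (Padic.norm_p_lt_one (p := p))
      have := lo_map φ (hfin w)
      rwa [hφ, hφ] at this
    · obtain ⟨L, i1, i2, i3, i4, s, hs, hpl, hL⟩ := exists_quad (p := p) ((m : ℤ) : ℚ_[p])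
      have i5 : CharZero L := charZero_of_injective_algebraMap (algebraMap ℚ_[p] L).injective
      obtain ⟨σ, hσ⟩ := exists_emb (F := L) (s := s) hr hDs hq.hK
        (by rw [hs, Rat.cast_intCast, map_intCast])
      obtain ⟨w, φ, hφ⟩ := exists_hom σ (Fact.out : p.Prime).ne_zero hpl
      have h := lo_map φ (hfin w)
      rw [hφ, hφ, hσ, hσ] at h
      have hc : ∀ n : ℤ, (n : L) = algebraMap ℚ_[p] L (n : ℚ_[p]) := fun n => (map_intCast _ n).symm
      have hc' : ∀ n : ℚ, (n : L) = algebraMap ℚ_[p] L (n : ℚ_[p]) := fun n =>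
        (map_ratCast _ n).symm
      rw [hc, hc, hc, hc', hc', hc', hc'] at h
      have h' := quad_pt hs hsq hL (by exact_mod_cast hab) (by exact_mod_cast hac)
        (by exact_mod_cast hbc) (pt_pad p a b c) h
      refine cl_fin (N₁ := a₁ ^ 2 - ((m : ℤ) : ℚ) * b₁ ^ 2)
        (N₂ := a₂ ^ 2 - ((m : ℤ) : ℚ) * b₂ ^ 2) ?_ hn1 hn2 hzu hzv
      convert h' using 1 <;> push_cast <;> rfl

end Pool.Agent.N803.K17
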