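import Pool.Agent.N875.K17.Stm

/-!
# Project K17: minimality of the equation at all the places of `K`, theorem `t_MIN : S_MIN`
-/

set_option autoImplicit false

namespace Pool.Agent.N803.K17

open IsDedekindDomain NumberField

open Pool.Agent.N875.K17 (Qd S_MIN)
open Pool.Agent.N871.S17 (WN)
open Pool.Agent.Y682.XF (base MinimalAt)

/-- an integral equation with coprime `c₄` and `Δ` is minimal -/
theorem min_coprime {K : Type} [Field K] [NumberField K] (W : WeierstrassCurve ℤ) (s t : ℤ)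
    (hst : s * W.c₄ + t * W.Δ = 1) (v : HeightOneSpectrum (𝓞 K)) : MinimalAt W v := by
  intro C h1 h2 h3 h4 h6
  have hZ : ∀ n : ℤ, v.valuation K (n : K) ≤ 1 := by
    intro n
    rw [← map_intCast (algebraMap (𝓞 K) K) n]
    exact v.valuation_le_one _
  set W' := C • base W K with hW'
  let R := (v.valuation K).integer
  let W0 : WeierstrassCurve R := ⟨⟨W'.a₁, h1⟩, ⟨W'.a₂, h2⟩, ⟨W'.a₃, h3⟩, ⟨W'.a₄, h4⟩, ⟨W'.a₆, h6⟩⟩
  have hmap : W0.map R.subtype = W' := by
    ext <;> rfl
  have hc : v.valuation K W'.c₄ ≤ 1 := by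
    rw [← hmap, WeierstrassCurve.map_c₄]
    exact (W0.c₄).2
  have hD : v.valuation K W'.Δ ≤ 1 := by
    rw [← hmap, WeierstrassCurve.map_Δ]
    exact (W0.Δ).2
  have e4 : W'.c₄ = (C.u⁻¹ : Kˣ) ^ 4 * (W.c₄ : K) := by
    rw [hW', WeierstrassCurve.variableChange_c₄, WeierstrassCurve.map_c₄]
    rfl
  have eD : W'.Δ = (C.u⁻¹ : Kˣ) ^ 12 * (W.Δ : K) := by
    rw [hW', WeierstrassCurve.variableChange_Δ, WeierstrassCurve.map_Δ]
    rfl
  have hbD : (base W K).Δ = (W.Δ : K) := by
    rw [WeierstrassCurve.map_Δ]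
    rfl
  rw [hbD]
  by_cases hu : v.valuation K ((C.u⁻¹ : Kˣ) : K) ≤ 1
  · rw [eD, map_mul, map_pow]
    exact mul_le_of_le_one_left' (pow_le_one' hu 12)
  · exfalso
    rw [not_le] at hu
    rw [e4, map_mul, map_pow] at hc
    rw [eD, map_mul, map_pow] at hD
    have k4 : v.valuation K ((W.c₄ : ℤ) : K) < 1 := by
      by_contra hcon
      rw [not_lt] at hcon
      have := one_lt_pow₀ hu (n := 4) (by norm_num)
      have h5 := this.trans_le (le_mul_of_one_le_right' hcon)
      exact absurd hc (not_le.2 h5)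
    have kD : v.valuation K ((W.Δ : ℤ) : K) < 1 := by
      by_contra hcon
      rw [not_lt] at hcon
      have := one_lt_pow₀ hu (n := 12) (by norm_num)
      have h5 := this.trans_le (le_mul_of_one_le_right' hcon)
      exact absurd hD (not_le.2 h5)
    have e1 : (1 : K) = (s : K) * (W.c₄ : K) + (t : K) * (W.Δ : K) := by
      exact_mod_cast (congrArg (fun n : ℤ => (n : K)) hst).symm
    have h5 : v.valuation K (1 : K) < 1 := by
      rw [e1]
      refine (Valuation.map_add _ _ _).trans_lt (max_lt ?_ ?_)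
      · rw [map_mul]
        exact (mul_le_of_le_one_left' (hZ s)).trans_lt k4
      · rw [map_mul]
        exact (mul_le_of_le_one_left' (hZ t)).trans_lt kD
    rw [map_one] at h5
    exact lt_irrefl _ h5

theorem t_MIN : S_MIN := by
  intro m hm h1 K _ _ r hq v
  refine min_coprime (WN 1) 18 (-17) ?_ v
  simp only [WN, WeierstrassCurve.c₄, WeierstrassCurve.Δ, WeierstrassCurve.b₂, WeierstrassCurve.b₄,
    WeierstrassCurve.b₆, WeierstrassCurve.b₈]
  norm_num

end Pool.Agent.N803.K17
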